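import Mathlib
import Pool.Agent.H805.T5.Tree2
import Pool.Agent.H805.T5.Auts
import Pool.Agent.H184.T5.F32_91

set_option autoImplicit false

namespace Pool.Agent.H805.T5.F32_91

open Pool.Agent.Helper582.Cube

def ent : List Ent :=
  [⟨1, 81, 0, 0⟩,
   ⟨2, 41, 0, 1⟩,
   ⟨3, 41, 0, 2⟩,
   ⟨4, 20, 0, 3⟩,
   ⟨5, 83, 0, 4⟩,
   ⟨6, 41, 0, 5⟩,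
   ⟨7, 81, 0, 6⟩,
   ⟨8, 100, 0, 7⟩,
   ⟨9, 100, 0, 8⟩,
   ⟨10, 20, 0, 9⟩,
   ⟨11, 41, 0, 10⟩,
   ⟨12, 100, 0, 11⟩,
   ⟨13, 81, 0, 12⟩,
   ⟨14, 100, 0, 13⟩,
   ⟨15, 41, 0, 14⟩,
   ⟨16, 20, 0, 15⟩,
   ⟨17, 41, 0, 16⟩,
   ⟨18, 81, 0, 17⟩,
   ⟨19, 81, 0, 18⟩,
   ⟨20, 81, 0, 19⟩,
   ⟨21, 100, 0, 20⟩,
   ⟨22, 100, 0, 21⟩,
   ⟨23, 100, 0, 22⟩,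
   ⟨24, 100, 0, 23⟩,
   ⟨25, 43, 1, 4⟩,
   ⟨26, 81, 1, 5⟩,
   ⟨27, 41, 1, 6⟩,
   ⟨28, 20, 1, 7⟩,
   ⟨29, 20, 1, 8⟩,
   ⟨30, 41, 0, 24⟩,
   ⟨31, 41, 0, 25⟩,
   ⟨33, 41, 0, 26⟩,
   ⟨34, 20, 0, 27⟩,
   ⟨35, 81, 0, 28⟩,
   ⟨36, 81, 0, 29⟩,
   ⟨37, 41, 0, 30⟩,
   ⟨38, 41, 0, 31⟩,
   ⟨39, 41, 0, 32⟩,
   ⟨40, 41, 0, 33⟩,
   ⟨41, 100, 0, 34⟩,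
   ⟨42, 100, 0, 35⟩,
   ⟨43, 81, 0, 36⟩,
   ⟨44, 81, 0, 37⟩,
   ⟨45, 41, 0, 38⟩,
   ⟨46, 20, 0, 39⟩,
   ⟨47, 41, 0, 40⟩,
   ⟨48, 41, 0, 41⟩,
   ⟨49, 41, 0, 42⟩,
   ⟨50, 100, 1, 9⟩,
   ⟨51, 81, 1, 10⟩,
   ⟨52, 20, 1, 11⟩,
   ⟨53, 41, 1, 12⟩,
   ⟨54, 20, 1, 13⟩,
   ⟨55, 41, 1, 28⟩,
   ⟨56, 41, 1, 29⟩,
   ⟨57, 81, 1, 30⟩,
   ⟨58, 81, 1, 31⟩,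
   ⟨59, 81, 1, 32⟩,
   ⟨60, 100, 0, 43⟩,
   ⟨61, 81, 0, 44⟩,
   ⟨63, 20, 0, 45⟩,
   ⟨64, 20, 0, 46⟩,
   ⟨65, 20, 0, 47⟩,
   ⟨66, 41, 0, 48⟩,
   ⟨67, 81, 0, 49⟩,
   ⟨68, 81, 0, 50⟩,
   ⟨69, 41, 0, 51⟩,
   ⟨70, 100, 0, 52⟩,
   ⟨71, 41, 0, 53⟩,
   ⟨72, 20, 0, 54⟩,
   ⟨73, 100, 0, 55⟩,
   ⟨74, 81, 0, 56⟩,
   ⟨75, 81, 1, 14⟩,
   ⟨76, 100, 1, 15⟩,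
   ⟨77, 81, 1, 16⟩,
   ⟨78, 41, 1, 17⟩,
   ⟨79, 41, 1, 18⟩,
   ⟨80, 81, 1, 33⟩,
   ⟨81, 20, 1, 34⟩,
   ⟨82, 20, 1, 35⟩,
   ⟨83, 41, 1, 36⟩,
   ⟨84, 41, 1, 37⟩,
   ⟨85, 100, 1, 47⟩,
   ⟨86, 81, 1, 48⟩,
   ⟨87, 41, 1, 49⟩,
   ⟨88, 41, 1, 50⟩,
   ⟨89, 81, 1, 51⟩,
   ⟨90, 100, 0, 57⟩,
   ⟨92, 81, 0, 58⟩,
   ⟨93, 20, 0, 59⟩,
   ⟨94, 100, 0, 60⟩,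
   ⟨95, 100, 0, 61⟩,
   ⟨96, 100, 0, 62⟩,
   ⟨97, 41, 0, 63⟩,
   ⟨98, 20, 0, 64⟩,
   ⟨99, 41, 0, 65⟩,
   ⟨100, 41, 1, 19⟩,
   ⟨101, 20, 1, 20⟩,
   ⟨102, 20, 1, 21⟩,
   ⟨103, 20, 1, 22⟩,
   ⟨104, 20, 1, 23⟩,
   ⟨105, 81, 1, 38⟩,
   ⟨106, 100, 1, 39⟩,
   ⟨107, 81, 1, 40⟩,
   ⟨108, 81, 1, 41⟩,
   ⟨109, 81, 1, 42⟩,
   ⟨110, 20, 1, 52⟩,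
   ⟨111, 81, 1, 53⟩,
   ⟨112, 100, 1, 54⟩,
   ⟨113, 20, 1, 55⟩,
   ⟨114, 41, 1, 56⟩,
   ⟨115, 20, 1, 61⟩,
   ⟨116, 20, 1, 62⟩,
   ⟨117, 81, 1, 63⟩,
   ⟨118, 100, 1, 64⟩,
   ⟨119, 81, 1, 65⟩,
   ⟨120, 41, 0, 66⟩,
   ⟨121, 100, 0, 67⟩,
   ⟨122, 41, 0, 68⟩,
   ⟨123, 41, 0, 69⟩,
   ⟨124, 100, 0, 70⟩]

theorem ok : nodeOK autA 192 Pool.Agent.H184.T5.F32_91.L [62, 32] [0, 91] ent = true := by decide +kernel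

theorem fam : BP (maskL [62, 32]) (maskL [0, 91]) := node autOK Pool.Agent.H184.T5.F32_91.all ok

end Pool.Agent.H805.T5.F32_91
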