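import Mathlib
import Pool.Agent.H805.T5.Tree2
import Pool.Agent.H805.T5.Auts
import Pool.Agent.H184.T5.F44_4
import Pool.Agent.H805.T5.N.N23
import Pool.Agent.H805.T5.N.N24
import Pool.Agent.H805.T5.N.N25
import Pool.Agent.H805.T5.N.N35

set_option autoImplicit false

namespace Pool.Agent.H805.T5.F44_4

open Pool.Agent.Helper582.Cube

def NL : List (ℕ × ℕ) :=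
  [(0x14000100000000000, 0x20000000011),
   (0x200004000100000000000, 0x800000000000000000011),
   (0x1000004000100000000000, 0x20000000011),
   (0x4000100001000000, 0x200000000000000000011)]

theorem hN : ∀ p ∈ NL, BP p.1 p.2 :=
  consP N23.t <|
  consP N24.t <|
  consP N25.t <|
  consP N35.t <|
  nilP

def L : List (ℕ × ℕ) := Pool.Agent.H184.T5.F44_4.L ++ NL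

theorem all : ∀ p ∈ L, BP p.1 p.2 := fun p hp => (List.mem_append.1 hp).elim (Pool.Agent.H184.T5.F44_4.all p) (hN p)

def ent : List Ent :=
  [⟨1, 83, 0, 0⟩,
   ⟨2, 83, 0, 1⟩,
   ⟨3, 81, 3, 0⟩,
   ⟨5, 81, 0, 2⟩,
   ⟨6, 81, 0, 3⟩,
   ⟨7, 41, 0, 4⟩,
   ⟨8, 83, 0, 5⟩,
   ⟨9, 81, 0, 6⟩,
   ⟨10, 81, 0, 7⟩,
   ⟨11, 41, 0, 8⟩,
   ⟨12, 83, 0, 9⟩,
   ⟨13, 43, 0, 10⟩,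
   ⟨14, 81, 0, 11⟩,
   ⟨15, 41, 0, 12⟩,
   ⟨16, 41, 0, 13⟩,
   ⟨17, 81, 0, 14⟩,
   ⟨18, 43, 0, 15⟩,
   ⟨19, 43, 0, 16⟩,
   ⟨20, 41, 0, 17⟩,
   ⟨21, 81, 0, 18⟩,
   ⟨22, 83, 0, 19⟩,
   ⟨23, 83, 0, 20⟩,
   ⟨24, 81, 0, 65⟩,
   ⟨25, 43, 3, 12⟩,
   ⟨26, 41, 3, 15⟩,
   ⟨27, 83, 3, 14⟩,
   ⟨28, 43, 3, 13⟩,
   ⟨29, 41, 3, 16⟩,
   ⟨30, 81, 0, 21⟩,
   ⟨31, 43, 0, 22⟩,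
   ⟨32, 41, 0, 23⟩,
   ⟨33, 81, 0, 24⟩,
   ⟨34, 43, 0, 25⟩,
   ⟨35, 43, 0, 26⟩,
   ⟨36, 43, 0, 27⟩,
   ⟨37, 81, 0, 28⟩,
   ⟨38, 81, 0, 29⟩,
   ⟨39, 43, 0, 30⟩,
   ⟨40, 81, 0, 31⟩,
   ⟨41, 43, 0, 32⟩,
   ⟨42, 41, 0, 33⟩,
   ⟨43, 41, 3, 32⟩,
   ⟨45, 41, 0, 34⟩,
   ⟨46, 41, 0, 35⟩,
   ⟨47, 81, 0, 36⟩,
   ⟨48, 41, 0, 37⟩,
   ⟨49, 81, 0, 38⟩,
   ⟨50, 83, 3, 7⟩,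
   ⟨51, 41, 3, 10⟩,
   ⟨52, 81, 3, 9⟩,
   ⟨53, 43, 3, 8⟩,
   ⟨54, 83, 3, 11⟩,
   ⟨55, 81, 0, 39⟩,
   ⟨56, 83, 0, 40⟩,
   ⟨57, 81, 0, 41⟩,
   ⟨58, 41, 0, 42⟩,
   ⟨59, 41, 0, 43⟩,
   ⟨60, 83, 0, 44⟩,
   ⟨61, 43, 0, 45⟩,
   ⟨63, 41, 3, 45⟩,
   ⟨64, 41, 0, 62⟩,
   ⟨65, 41, 3, 26⟩,
   ⟨66, 83, 3, 29⟩,
   ⟨67, 83, 3, 28⟩,
   ⟨68, 41, 3, 27⟩,
   ⟨69, 41, 3, 30⟩,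
   ⟨70, 41, 0, 46⟩,
   ⟨71, 41, 0, 47⟩,
   ⟨72, 81, 0, 48⟩,
   ⟨73, 83, 0, 49⟩,
   ⟨74, 81, 0, 50⟩,
   ⟨75, 83, 3, 2⟩,
   ⟨76, 81, 3, 5⟩,
   ⟨77, 43, 3, 4⟩,
   ⟨78, 83, 3, 3⟩,
   ⟨79, 83, 3, 6⟩,
   ⟨80, 81, 0, 51⟩,
   ⟨81, 83, 0, 63⟩,
   ⟨82, 81, 0, 52⟩,
   ⟨83, 81, 3, 63⟩,
   ⟨84, 41, 0, 64⟩,
   ⟨85, 83, 3, 39⟩,
   ⟨86, 43, 3, 42⟩,
   ⟨87, 83, 3, 41⟩,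
   ⟨88, 81, 3, 40⟩,
   ⟨89, 43, 3, 43⟩,
   ⟨90, 83, 3, 21⟩,
   ⟨91, 83, 3, 24⟩,
   ⟨92, 43, 3, 23⟩,
   ⟨93, 41, 3, 22⟩,
   ⟨94, 41, 3, 25⟩,
   ⟨95, 83, 0, 53⟩,
   ⟨96, 83, 0, 54⟩,
   ⟨97, 83, 0, 55⟩,
   ⟨98, 81, 0, 56⟩,
   ⟨99, 81, 0, 57⟩,
   ⟨100, 43, 3, 17⟩,
   ⟨101, 81, 3, 20⟩,
   ⟨102, 81, 3, 19⟩,
   ⟨103, 83, 3, 18⟩,
   ⟨104, 83, 3, 65⟩,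
   ⟨105, 81, 3, 53⟩,
   ⟨106, 83, 3, 56⟩,
   ⟨107, 81, 3, 55⟩,
   ⟨108, 81, 3, 54⟩,
   ⟨109, 83, 3, 57⟩,
   ⟨110, 43, 3, 46⟩,
   ⟨111, 81, 3, 49⟩,
   ⟨112, 83, 3, 48⟩,
   ⟨113, 43, 3, 47⟩,
   ⟨114, 83, 3, 50⟩,
   ⟨115, 43, 3, 34⟩,
   ⟨116, 43, 3, 37⟩,
   ⟨117, 83, 3, 36⟩,
   ⟨118, 43, 3, 35⟩,
   ⟨119, 83, 3, 38⟩,
   ⟨120, 83, 0, 58⟩,
   ⟨121, 43, 0, 59⟩,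
   ⟨122, 43, 0, 60⟩,
   ⟨123, 41, 3, 59⟩,
   ⟨124, 83, 0, 61⟩]

theorem ok : nodeOK autA 192 L [62, 44] [0, 4] ent = true := by decide +kernel

theorem fam : BP (maskL [62, 44]) (maskL [0, 4]) := node autOK all ok

end Pool.Agent.H805.T5.F44_4
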