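import Mathlib
import Pool.Agent.H805.T5.Tree2
import Pool.Agent.H805.T5.Auts
import Pool.Agent.H184.T5.F49_43

set_option autoImplicit false

namespace Pool.Agent.H805.T5.F49_43

open Pool.Agent.Helper582.Cube

def ent : List Ent :=
  [⟨1, 33, 0, 0⟩,
   ⟨2, 20, 0, 1⟩,
   ⟨3, 20, 0, 2⟩,
   ⟨4, 33, 0, 3⟩,
   ⟨5, 41, 4, 0⟩,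
   ⟨6, 20, 0, 4⟩,
   ⟨7, 4, 0, 5⟩,
   ⟨8, 20, 0, 6⟩,
   ⟨9, 20, 0, 7⟩,
   ⟨10, 4, 4, 1⟩,
   ⟨11, 20, 4, 5⟩,
   ⟨12, 4, 0, 8⟩,
   ⟨13, 4, 0, 9⟩,
   ⟨14, 4, 0, 10⟩,
   ⟨15, 4, 4, 2⟩,
   ⟨16, 4, 4, 6⟩,
   ⟨17, 20, 4, 9⟩,
   ⟨18, 4, 0, 11⟩,
   ⟨19, 4, 0, 12⟩,
   ⟨20, 41, 4, 3⟩,
   ⟨21, 4, 4, 7⟩,
   ⟨22, 20, 4, 10⟩,
   ⟨23, 20, 4, 12⟩,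
   ⟨24, 33, 0, 13⟩,
   ⟨25, 41, 0, 14⟩,
   ⟨26, 4, 0, 15⟩,
   ⟨27, 4, 0, 16⟩,
   ⟨28, 4, 0, 17⟩,
   ⟨29, 41, 0, 18⟩,
   ⟨30, 20, 4, 15⟩,
   ⟨31, 20, 0, 19⟩,
   ⟨32, 41, 0, 20⟩,
   ⟨33, 20, 0, 21⟩,
   ⟨34, 4, 0, 22⟩,
   ⟨35, 20, 4, 16⟩,
   ⟨36, 33, 4, 20⟩,
   ⟨37, 41, 0, 23⟩,
   ⟨38, 20, 0, 24⟩,
   ⟨39, 4, 0, 25⟩,
   ⟨40, 20, 4, 17⟩,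
   ⟨41, 4, 4, 21⟩,
   ⟨42, 4, 4, 24⟩,
   ⟨44, 20, 0, 26⟩,
   ⟨45, 33, 4, 18⟩,
   ⟨46, 20, 4, 22⟩,
   ⟨47, 20, 4, 25⟩,
   ⟨48, 4, 4, 26⟩,
   ⟨50, 4, 0, 27⟩,
   ⟨51, 33, 0, 28⟩,
   ⟨52, 20, 0, 29⟩,
   ⟨53, 4, 0, 30⟩,
   ⟨54, 20, 0, 31⟩,
   ⟨55, 41, 4, 28⟩,
   ⟨56, 20, 0, 32⟩,
   ⟨57, 20, 0, 33⟩,
   ⟨58, 4, 0, 34⟩,
   ⟨59, 4, 0, 35⟩,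
   ⟨60, 4, 4, 29⟩,
   ⟨61, 4, 4, 33⟩,
   ⟨63, 20, 0, 36⟩,
   ⟨64, 4, 0, 37⟩,
   ⟨65, 20, 4, 30⟩,
   ⟨66, 20, 4, 34⟩,
   ⟨67, 4, 4, 36⟩,
   ⟨68, 4, 0, 38⟩,
   ⟨69, 4, 0, 39⟩,
   ⟨70, 4, 4, 31⟩,
   ⟨71, 20, 4, 35⟩,
   ⟨72, 20, 4, 37⟩,
   ⟨73, 20, 4, 39⟩,
   ⟨74, 20, 0, 40⟩,
   ⟨75, 33, 0, 41⟩,
   ⟨76, 20, 0, 42⟩,
   ⟨77, 20, 0, 43⟩,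
   ⟨78, 20, 0, 44⟩,
   ⟨79, 20, 0, 45⟩,
   ⟨80, 4, 4, 42⟩,
   ⟨81, 33, 0, 46⟩,
   ⟨82, 20, 0, 47⟩,
   ⟨83, 41, 0, 48⟩,
   ⟨84, 4, 0, 49⟩,
   ⟨85, 4, 4, 43⟩,
   ⟨86, 4, 4, 47⟩,
   ⟨87, 33, 0, 50⟩,
   ⟨88, 4, 0, 51⟩,
   ⟨89, 4, 0, 52⟩,
   ⟨90, 4, 4, 44⟩,
   ⟨91, 33, 4, 48⟩,
   ⟨92, 20, 4, 51⟩,
   ⟨93, 41, 0, 53⟩,
   ⟨94, 20, 0, 54⟩,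
   ⟨95, 4, 4, 45⟩,
   ⟨96, 20, 4, 49⟩,
   ⟨97, 20, 4, 52⟩,
   ⟨98, 4, 4, 54⟩,
   ⟨99, 4, 0, 55⟩,
   ⟨100, 33, 0, 56⟩,
   ⟨101, 4, 0, 57⟩,
   ⟨102, 20, 0, 58⟩,
   ⟨103, 4, 0, 59⟩,
   ⟨104, 20, 0, 60⟩,
   ⟨105, 20, 4, 57⟩,
   ⟨106, 4, 0, 61⟩,
   ⟨107, 20, 0, 62⟩,
   ⟨108, 120, 0, 63⟩,
   ⟨109, 4, 0, 64⟩,
   ⟨110, 4, 4, 58⟩,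
   ⟨111, 4, 4, 62⟩,
   ⟨112, 33, 0, 65⟩,
   ⟨113, 4, 0, 66⟩,
   ⟨114, 4, 0, 67⟩,
   ⟨115, 20, 4, 59⟩,
   ⟨116, 104, 4, 63⟩,
   ⟨117, 20, 4, 66⟩,
   ⟨118, 4, 0, 68⟩,
   ⟨119, 20, 0, 69⟩,
   ⟨120, 4, 4, 60⟩,
   ⟨121, 20, 4, 64⟩,
   ⟨122, 20, 4, 67⟩,
   ⟨123, 4, 4, 69⟩,
   ⟨124, 20, 0, 70⟩]

theorem ok : nodeOK autA 192 Pool.Agent.H184.T5.F49_43.L [62, 49] [0, 43] ent = true := by decide +kernel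

theorem fam : BP (maskL [62, 49]) (maskL [0, 43]) := node autOK Pool.Agent.H184.T5.F49_43.all ok

end Pool.Agent.H805.T5.F49_43
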