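import Mathlib
import Pool.Agent.H805.T5.Tree2
import Pool.Agent.H805.T5.Auts
import Pool.Agent.H184.T5.F4_33
import Pool.Agent.H805.T5.N.N1
import Pool.Agent.H805.T5.N.N2
import Pool.Agent.H805.T5.N.N3
import Pool.Agent.H805.T5.N.N4
import Pool.Agent.H805.T5.N.N5
import Pool.Agent.H805.T5.N.N6
import Pool.Agent.H805.T5.N.N7
import Pool.Agent.H805.T5.N.N8
import Pool.Agent.H805.T5.N.N9
import Pool.Agent.H805.T5.N.N10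
import Pool.Agent.H805.T5.N.N11
import Pool.Agent.H805.T5.N.N12
import Pool.Agent.H805.T5.N.N13
import Pool.Agent.H805.T5.N.N14
import Pool.Agent.H805.T5.N.N27
import Pool.Agent.H805.T5.N.N28
import Pool.Agent.H805.T5.N.N29
import Pool.Agent.H805.T5.N.N30
import Pool.Agent.H805.T5.N.N31
import Pool.Agent.H805.T5.N.N32
import Pool.Agent.H805.T5.N.N33
import Pool.Agent.H805.T5.N.N34
import Pool.Agent.H805.T5.N.N37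

set_option autoImplicit false

namespace Pool.Agent.H805.T5.F4_33

open Pool.Agent.Helper582.Cube

def NL : List (ℕ × ℕ) :=
  [(0x4000000000000012, 0x80200000001),
   (0x4000000000040010, 0x800000000000200000001),
   (0x4000000000080010, 0x10000000000000000200000001),
   (0x4000000000200010, 0x10000000000000000200000001),
   (0x4000000000400010, 0x200100001),
   (0x4000000000800010, 0x200100001),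
   (0x4000000400000010, 0x200100001),
   (0x4000000800000010, 0x10000000000000000200000001),
   (0x4000002000000010, 0x800000000000200000001),
   (0x4000020000000010, 0x200100001),
   (0x4000080000000010, 0x200100001),
   (0x4000200000000010, 0x10000000000000000200000001),
   (0x44000000000000010, 0x200100001),
   (0x1000000000000004000000000000010, 0x200100001),
   (0x4000000080000010, 0x200100001),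
   (0x4000040000000010, 0x200100001),
   (0x4000800000000010, 0x10000000000000000200000001),
   (0x4000000000020010, 0x10000000000000000200000001),
   (0x4000000000100010, 0x80200000001),
   (0x4000400000000010, 0x200100001),
   (0x84000000000000010, 0x80200000001),
   (0x8000000004000000000000010, 0x800000000000200000001),
   (0x2000000000000004000000000000010, 0x200100001)]

theorem hN : ∀ p ∈ NL, BP p.1 p.2 :=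
  consP N1.t <|
  consP N2.t <|
  consP N3.t <|
  consP N4.t <|
  consP N5.t <|
  consP N6.t <|
  consP N7.t <|
  consP N8.t <|
  consP N9.t <|
  consP N10.t <|
  consP N11.t <|
  consP N12.t <|
  consP N13.t <|
  consP N14.t <|
  consP N27.t <|
  consP N28.t <|
  consP N29.t <|
  consP N30.t <|
  consP N31.t <|
  consP N32.t <|
  consP N33.t <|
  consP N34.t <|
  consP N37.t <|
  nilP

def L : List (ℕ × ℕ) := Pool.Agent.H184.T5.F4_33.L ++ NL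

theorem all : ∀ p ∈ L, BP p.1 p.2 := fun p hp => (List.mem_append.1 hp).elim (Pool.Agent.H184.T5.F4_33.all p) (hN p)

def ent : List Ent :=
  [⟨1, 43, 0, 48⟩,
   ⟨2, 43, 0, 0⟩,
   ⟨3, 83, 0, 1⟩,
   ⟨5, 41, 0, 2⟩,
   ⟨6, 20, 0, 3⟩,
   ⟨7, 81, 0, 4⟩,
   ⟨8, 20, 0, 5⟩,
   ⟨9, 20, 0, 6⟩,
   ⟨10, 43, 0, 7⟩,
   ⟨11, 100, 0, 8⟩,
   ⟨12, 20, 0, 9⟩,
   ⟨13, 100, 0, 10⟩,
   ⟨14, 100, 0, 11⟩,
   ⟨15, 43, 0, 12⟩,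
   ⟨16, 20, 0, 47⟩,
   ⟨17, 100, 0, 65⟩,
   ⟨18, 83, 0, 49⟩,
   ⟨19, 100, 0, 50⟩,
   ⟨20, 43, 0, 66⟩,
   ⟨21, 100, 0, 51⟩,
   ⟨22, 20, 0, 52⟩,
   ⟨23, 20, 0, 53⟩,
   ⟨24, 43, 0, 13⟩,
   ⟨25, 81, 1, 2⟩,
   ⟨26, 100, 1, 3⟩,
   ⟨27, 41, 1, 4⟩,
   ⟨28, 100, 1, 5⟩,
   ⟨29, 100, 1, 6⟩,
   ⟨30, 100, 0, 14⟩,
   ⟨31, 20, 0, 62⟩,
   ⟨32, 43, 0, 15⟩,
   ⟨34, 20, 0, 54⟩,
   ⟨35, 100, 0, 55⟩,
   ⟨36, 100, 0, 16⟩,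
   ⟨37, 83, 0, 56⟩,
   ⟨38, 100, 0, 17⟩,
   ⟨39, 100, 0, 18⟩,
   ⟨40, 20, 0, 19⟩,
   ⟨41, 20, 0, 57⟩,
   ⟨42, 20, 0, 63⟩,
   ⟨43, 20, 0, 58⟩,
   ⟨44, 20, 0, 20⟩,
   ⟨45, 100, 0, 59⟩,
   ⟨46, 20, 0, 67⟩,
   ⟨47, 100, 0, 64⟩,
   ⟨48, 20, 0, 21⟩,
   ⟨49, 43, 0, 22⟩,
   ⟨50, 83, 1, 7⟩,
   ⟨51, 20, 1, 8⟩,
   ⟨52, 100, 1, 9⟩,
   ⟨53, 20, 1, 10⟩,
   ⟨54, 20, 1, 11⟩,
   ⟨55, 20, 1, 55⟩,
   ⟨56, 20, 1, 16⟩,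
   ⟨57, 43, 1, 56⟩,
   ⟨58, 20, 1, 17⟩,
   ⟨59, 20, 1, 18⟩,
   ⟨60, 100, 0, 23⟩,
   ⟨61, 100, 0, 24⟩,
   ⟨63, 83, 0, 25⟩,
   ⟨64, 81, 0, 26⟩,
   ⟨65, 41, 0, 27⟩,
   ⟨66, 20, 0, 60⟩,
   ⟨67, 43, 0, 68⟩,
   ⟨68, 100, 0, 28⟩,
   ⟨69, 20, 0, 29⟩,
   ⟨70, 41, 0, 30⟩,
   ⟨71, 20, 0, 31⟩,
   ⟨72, 41, 0, 32⟩,
   ⟨73, 100, 0, 33⟩,
   ⟨74, 20, 0, 34⟩,
   ⟨75, 83, 1, 12⟩,
   ⟨76, 100, 1, 47⟩,
   ⟨77, 20, 1, 65⟩,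
   ⟨78, 43, 1, 49⟩,
   ⟨79, 20, 1, 50⟩,
   ⟨80, 100, 1, 19⟩,
   ⟨81, 100, 1, 57⟩,
   ⟨82, 100, 1, 63⟩,
   ⟨83, 100, 1, 58⟩,
   ⟨84, 100, 1, 20⟩,
   ⟨85, 81, 1, 27⟩,
   ⟨86, 100, 1, 60⟩,
   ⟨87, 83, 1, 68⟩,
   ⟨88, 20, 1, 28⟩,
   ⟨89, 100, 1, 29⟩,
   ⟨90, 20, 0, 35⟩,
   ⟨91, 100, 0, 36⟩,
   ⟨92, 100, 0, 37⟩,
   ⟨93, 20, 0, 38⟩,
   ⟨94, 20, 0, 39⟩,
   ⟨95, 83, 0, 40⟩,
   ⟨96, 83, 0, 41⟩,
   ⟨97, 81, 0, 42⟩,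
   ⟨98, 20, 0, 43⟩,
   ⟨99, 83, 0, 69⟩,
   ⟨100, 83, 1, 66⟩,
   ⟨101, 20, 1, 51⟩,
   ⟨102, 100, 1, 52⟩,
   ⟨103, 100, 1, 53⟩,
   ⟨104, 83, 1, 13⟩,
   ⟨105, 20, 1, 59⟩,
   ⟨106, 100, 1, 67⟩,
   ⟨107, 20, 1, 64⟩,
   ⟨108, 100, 1, 21⟩,
   ⟨109, 83, 1, 22⟩,
   ⟨110, 81, 1, 30⟩,
   ⟨111, 100, 1, 31⟩,
   ⟨112, 81, 1, 32⟩,
   ⟨113, 20, 1, 33⟩,
   ⟨114, 100, 1, 34⟩,
   ⟨115, 43, 1, 40⟩,
   ⟨116, 43, 1, 41⟩,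
   ⟨117, 41, 1, 42⟩,
   ⟨118, 100, 1, 43⟩,
   ⟨119, 43, 1, 69⟩,
   ⟨120, 20, 0, 61⟩,
   ⟨121, 20, 0, 70⟩,
   ⟨122, 83, 0, 44⟩,
   ⟨123, 83, 0, 45⟩,
   ⟨124, 83, 0, 46⟩]

theorem ok : nodeOK autA 192 L [62, 4] [0, 33] ent = true := by decide +kernel

theorem fam : BP (maskL [62, 4]) (maskL [0, 33]) := node autOK all ok

end Pool.Agent.H805.T5.F4_33
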