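import Mathlib
import Pool.Agent.H805.T5.Tree2
import Pool.Agent.H805.T5.Auts
import Pool.Agent.H184.T5.F64_41
import Pool.Agent.H805.T5.N.N22
import Pool.Agent.H805.T5.N.N26
import Pool.Agent.H805.T5.N.N33
import Pool.Agent.H805.T5.N.N36

set_option autoImplicit false

namespace Pool.Agent.H805.T5.F64_41

open Pool.Agent.Helper582.Cube

def NL : List (ℕ × ℕ) :=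
  [(0x14000000400000000, 0x200100001),
   (0x20000000014000000000000000, 0x20000000011),
   (0x84000000000000010, 0x80200000001),
   (0x10014000000000000000, 0x20000000011)]

theorem hN : ∀ p ∈ NL, BP p.1 p.2 :=
  consP N22.t <|
  consP N26.t <|
  consP N33.t <|
  consP N36.t <|
  nilP

def L : List (ℕ × ℕ) := Pool.Agent.H184.T5.F64_41.L ++ NL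

theorem all : ∀ p ∈ L, BP p.1 p.2 := fun p hp => (List.mem_append.1 hp).elim (Pool.Agent.H184.T5.F64_41.all p) (hN p)

def ent : List Ent :=
  [⟨1, 91, 0, 0⟩,
   ⟨2, 4, 0, 1⟩,
   ⟨3, 91, 0, 2⟩,
   ⟨4, 33, 0, 3⟩,
   ⟨5, 91, 0, 4⟩,
   ⟨6, 43, 0, 5⟩,
   ⟨7, 4, 0, 6⟩,
   ⟨8, 33, 0, 7⟩,
   ⟨9, 100, 0, 8⟩,
   ⟨10, 4, 0, 9⟩,
   ⟨11, 91, 0, 10⟩,
   ⟨12, 4, 0, 11⟩,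
   ⟨13, 33, 0, 12⟩,
   ⟨14, 4, 0, 13⟩,
   ⟨15, 43, 0, 14⟩,
   ⟨16, 4, 0, 15⟩,
   ⟨17, 91, 0, 16⟩,
   ⟨18, 91, 0, 17⟩,
   ⟨19, 91, 0, 18⟩,
   ⟨20, 33, 0, 19⟩,
   ⟨21, 33, 0, 20⟩,
   ⟨22, 4, 0, 21⟩,
   ⟨23, 4, 0, 22⟩,
   ⟨24, 33, 0, 23⟩,
   ⟨25, 43, 0, 24⟩,
   ⟨26, 100, 0, 25⟩,
   ⟨27, 100, 0, 26⟩,
   ⟨28, 100, 0, 27⟩,
   ⟨29, 4, 0, 28⟩,
   ⟨30, 43, 0, 29⟩,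
   ⟨31, 4, 63, 119⟩,
   ⟨32, 33, 0, 30⟩,
   ⟨33, 91, 0, 31⟩,
   ⟨34, 43, 0, 32⟩,
   ⟨35, 4, 0, 33⟩,
   ⟨36, 43, 0, 34⟩,
   ⟨37, 4, 0, 35⟩,
   ⟨38, 4, 0, 36⟩,
   ⟨39, 4, 0, 37⟩,
   ⟨40, 100, 0, 38⟩,
   ⟨42, 4, 0, 39⟩,
   ⟨43, 4, 0, 40⟩,
   ⟨44, 100, 31, 117⟩,
   ⟨45, 4, 0, 41⟩,
   ⟨46, 4, 0, 42⟩,
   ⟨47, 91, 0, 43⟩,
   ⟨48, 4, 0, 44⟩,
   ⟨49, 91, 0, 45⟩,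
   ⟨50, 4, 0, 46⟩,
   ⟨51, 4, 0, 47⟩,
   ⟨52, 4, 0, 48⟩,
   ⟨53, 100, 0, 49⟩,
   ⟨54, 4, 0, 50⟩,
   ⟨55, 4, 0, 51⟩,
   ⟨56, 43, 0, 52⟩,
   ⟨57, 43, 0, 53⟩,
   ⟨58, 4, 0, 54⟩,
   ⟨59, 4, 0, 55⟩,
   ⟨60, 100, 0, 56⟩,
   ⟨61, 100, 0, 57⟩,
   ⟨63, 4, 0, 58⟩,
   ⟨65, 43, 0, 59⟩,
   ⟨66, 91, 0, 60⟩,
   ⟨67, 4, 0, 61⟩,
   ⟨68, 4, 0, 62⟩,
   ⟨69, 100, 0, 63⟩,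
   ⟨70, 4, 0, 64⟩,
   ⟨71, 4, 0, 65⟩,
   ⟨72, 4, 0, 66⟩,
   ⟨73, 43, 0, 67⟩,
   ⟨74, 4, 0, 68⟩,
   ⟨75, 81, 0, 69⟩,
   ⟨76, 4, 0, 120⟩,
   ⟨77, 33, 0, 70⟩,
   ⟨78, 43, 0, 71⟩,
   ⟨79, 4, 0, 72⟩,
   ⟨80, 100, 0, 73⟩,
   ⟨81, 100, 0, 74⟩,
   ⟨82, 100, 0, 75⟩,
   ⟨83, 91, 0, 76⟩,
   ⟨84, 91, 0, 77⟩,
   ⟨85, 4, 0, 78⟩,
   ⟨86, 100, 0, 79⟩,
   ⟨87, 43, 0, 80⟩,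
   ⟨88, 4, 0, 81⟩,
   ⟨89, 91, 0, 82⟩,
   ⟨90, 43, 0, 83⟩,
   ⟨91, 100, 0, 84⟩,
   ⟨92, 33, 0, 85⟩,
   ⟨93, 100, 0, 86⟩,
   ⟨94, 43, 0, 87⟩,
   ⟨95, 91, 0, 88⟩,
   ⟨96, 4, 0, 89⟩,
   ⟨97, 4, 0, 90⟩,
   ⟨98, 43, 0, 91⟩,
   ⟨99, 91, 0, 92⟩,
   ⟨100, 91, 0, 93⟩,
   ⟨101, 4, 0, 118⟩,
   ⟨102, 4, 0, 94⟩,
   ⟨103, 4, 0, 95⟩,
   ⟨104, 4, 0, 96⟩,
   ⟨105, 91, 0, 97⟩,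
   ⟨106, 43, 0, 98⟩,
   ⟨107, 4, 0, 99⟩,
   ⟨108, 100, 0, 100⟩,
   ⟨109, 4, 0, 101⟩,
   ⟨110, 33, 0, 102⟩,
   ⟨111, 4, 0, 103⟩,
   ⟨112, 81, 0, 104⟩,
   ⟨113, 43, 0, 105⟩,
   ⟨114, 4, 0, 106⟩,
   ⟨115, 43, 0, 107⟩,
   ⟨116, 4, 0, 108⟩,
   ⟨117, 4, 0, 109⟩,
   ⟨118, 4, 0, 110⟩,
   ⟨119, 4, 0, 111⟩,
   ⟨120, 91, 0, 112⟩,
   ⟨121, 91, 0, 113⟩,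
   ⟨122, 91, 0, 114⟩,
   ⟨123, 4, 0, 115⟩,
   ⟨124, 100, 0, 116⟩]

theorem ok : nodeOK autA 192 L [62, 64] [0, 41] ent = true := by decide +kernel

theorem fam : BP (maskL [62, 64]) (maskL [0, 41]) := node autOK all ok

end Pool.Agent.H805.T5.F64_41
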