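import Mathlib
import Pool.Agent.H805.T5.Tree2
import Pool.Agent.H805.T5.Auts
import Pool.Agent.H184.T5.F8_33
import Pool.Agent.H805.T5.N.N15
import Pool.Agent.H805.T5.N.N38

set_option autoImplicit false

namespace Pool.Agent.H805.T5.F8_33

open Pool.Agent.Helper582.Cube

def NL : List (ℕ × ℕ) :=
  [(0x10000000004000000000000100, 0x200100001),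
   (0x4000000000100100, 0x80200000001)]

theorem hN : ∀ p ∈ NL, BP p.1 p.2 :=
  consP N15.t <|
  consP N38.t <|
  nilP

def L : List (ℕ × ℕ) := Pool.Agent.H184.T5.F8_33.L ++ NL

theorem all : ∀ p ∈ L, BP p.1 p.2 := fun p hp => (List.mem_append.1 hp).elim (Pool.Agent.H184.T5.F8_33.all p) (hN p)

def ent : List Ent :=
  [⟨1, 83, 0, 0⟩,
   ⟨2, 20, 0, 1⟩,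
   ⟨3, 20, 0, 2⟩,
   ⟨4, 20, 0, 3⟩,
   ⟨5, 83, 0, 4⟩,
   ⟨6, 104, 0, 5⟩,
   ⟨7, 100, 0, 6⟩,
   ⟨9, 20, 0, 7⟩,
   ⟨10, 20, 0, 8⟩,
   ⟨11, 20, 0, 9⟩,
   ⟨12, 20, 0, 10⟩,
   ⟨13, 20, 0, 11⟩,
   ⟨14, 20, 0, 12⟩,
   ⟨15, 83, 0, 13⟩,
   ⟨16, 20, 0, 14⟩,
   ⟨17, 100, 0, 15⟩,
   ⟨18, 20, 0, 16⟩,
   ⟨19, 100, 0, 17⟩,
   ⟨20, 43, 0, 120⟩,
   ⟨21, 100, 0, 18⟩,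
   ⟨22, 20, 0, 19⟩,
   ⟨23, 20, 0, 20⟩,
   ⟨24, 43, 0, 21⟩,
   ⟨25, 20, 0, 22⟩,
   ⟨26, 20, 0, 23⟩,
   ⟨27, 20, 0, 24⟩,
   ⟨28, 20, 0, 25⟩,
   ⟨29, 20, 0, 26⟩,
   ⟨30, 20, 0, 27⟩,
   ⟨31, 104, 0, 28⟩,
   ⟨32, 43, 0, 29⟩,
   ⟨34, 20, 0, 30⟩,
   ⟨35, 100, 0, 31⟩,
   ⟨36, 20, 0, 32⟩,
   ⟨37, 20, 0, 33⟩,
   ⟨38, 20, 0, 34⟩,
   ⟨39, 20, 0, 35⟩,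
   ⟨40, 20, 0, 36⟩,
   ⟨41, 20, 0, 37⟩,
   ⟨42, 43, 0, 38⟩,
   ⟨43, 20, 0, 39⟩,
   ⟨44, 20, 0, 40⟩,
   ⟨45, 20, 0, 41⟩,
   ⟨46, 20, 0, 42⟩,
   ⟨47, 100, 0, 43⟩,
   ⟨48, 20, 0, 44⟩,
   ⟨49, 20, 0, 45⟩,
   ⟨50, 20, 0, 46⟩,
   ⟨51, 20, 0, 47⟩,
   ⟨52, 20, 0, 48⟩,
   ⟨53, 43, 0, 49⟩,
   ⟨54, 20, 0, 50⟩,
   ⟨55, 20, 0, 51⟩,
   ⟨56, 43, 0, 52⟩,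
   ⟨57, 20, 0, 53⟩,
   ⟨58, 20, 0, 54⟩,
   ⟨59, 20, 0, 55⟩,
   ⟨60, 20, 0, 56⟩,
   ⟨61, 20, 0, 57⟩,
   ⟨63, 20, 0, 58⟩,
   ⟨64, 20, 0, 59⟩,
   ⟨65, 20, 0, 60⟩,
   ⟨66, 20, 0, 61⟩,
   ⟨67, 20, 0, 62⟩,
   ⟨68, 20, 0, 63⟩,
   ⟨69, 20, 0, 64⟩,
   ⟨70, 20, 0, 65⟩,
   ⟨71, 43, 0, 66⟩,
   ⟨72, 20, 0, 67⟩,
   ⟨73, 20, 0, 68⟩,
   ⟨74, 100, 0, 69⟩,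
   ⟨75, 43, 0, 70⟩,
   ⟨76, 20, 0, 71⟩,
   ⟨77, 43, 0, 72⟩,
   ⟨78, 43, 0, 73⟩,
   ⟨79, 20, 0, 74⟩,
   ⟨80, 20, 0, 75⟩,
   ⟨81, 100, 0, 76⟩,
   ⟨82, 20, 0, 77⟩,
   ⟨83, 100, 0, 78⟩,
   ⟨84, 20, 0, 79⟩,
   ⟨85, 20, 0, 80⟩,
   ⟨86, 20, 0, 81⟩,
   ⟨87, 20, 0, 82⟩,
   ⟨88, 20, 0, 83⟩,
   ⟨89, 20, 0, 84⟩,
   ⟨90, 43, 0, 85⟩,
   ⟨91, 43, 0, 86⟩,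
   ⟨92, 20, 0, 87⟩,
   ⟨93, 20, 0, 88⟩,
   ⟨94, 20, 0, 89⟩,
   ⟨95, 43, 0, 90⟩,
   ⟨96, 20, 0, 91⟩,
   ⟨97, 20, 0, 92⟩,
   ⟨98, 20, 0, 93⟩,
   ⟨99, 20, 0, 94⟩,
   ⟨100, 20, 0, 119⟩,
   ⟨101, 20, 0, 95⟩,
   ⟨102, 20, 0, 96⟩,
   ⟨103, 20, 0, 97⟩,
   ⟨104, 20, 0, 98⟩,
   ⟨105, 20, 0, 99⟩,
   ⟨106, 20, 0, 100⟩,
   ⟨107, 20, 0, 101⟩,
   ⟨108, 20, 0, 102⟩,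
   ⟨109, 20, 0, 103⟩,
   ⟨110, 20, 0, 104⟩,
   ⟨111, 20, 0, 105⟩,
   ⟨112, 20, 0, 106⟩,
   ⟨113, 20, 0, 107⟩,
   ⟨114, 20, 0, 108⟩,
   ⟨115, 20, 0, 109⟩,
   ⟨116, 20, 0, 110⟩,
   ⟨117, 43, 0, 111⟩,
   ⟨118, 20, 0, 112⟩,
   ⟨119, 43, 0, 113⟩,
   ⟨120, 20, 0, 114⟩,
   ⟨121, 20, 0, 115⟩,
   ⟨122, 20, 0, 116⟩,
   ⟨123, 20, 0, 117⟩,
   ⟨124, 20, 0, 118⟩]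

theorem ok : nodeOK autA 192 L [62, 8] [0, 33] ent = true := by decide +kernel

theorem fam : BP (maskL [62, 8]) (maskL [0, 33]) := node autOK all ok

end Pool.Agent.H805.T5.F8_33
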